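import Pool.Agent.H88.B2.Targets2

set_option autoImplicit false

namespace Pool.Agent.H59.B2.DMU

open MeasureTheory Set
open Pool.Agent.H83.G Pool.Agent.H88.B2 Pool.Agent.H22.G4
open scoped ENNReal NNReal RealInnerProductSpace

theorem pf_DMU (hNDM : T_NDM) : T_DMU := by
  intro L β Ψ ψ δ b₀ B ε₀
  by_cases hδ : 0 < δ ∧ δ ≤ 1 / 4
  swap
  · refine ⟨0, fun N _ => ⟨1, le_rfl, ?_⟩⟩
    intro κ R P A H En G c z₀ S a b l k QQ X w M i hC hD
    exact absurd ⟨hD.d0, hD.d1.trans (by norm_num)⟩ hδ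
  obtain ⟨N₀, hN⟩ := hNDM 2 δ (by norm_num) hδ.1 hδ.2
  refine ⟨N₀, fun N hNN => ?_⟩
  obtain ⟨C, hC1, hC⟩ := hN N hNN
  refine ⟨max C B, le_max_of_le_left hC1, ?_⟩
  intro κ R P A H En G c z₀ S a b l k QQ X w M i hCR hD hw1 hw2 hM hMt z hz
  have hR := hD.R1
  have hR0 : 0 < R := by linarith
  have hcard : ((S i).card : ℝ) ≤ R ^ ((4 : ℝ) * (((2 : ℕ) : ℝ) + 2)) := by
    refine (hD.card i).trans ?_
    have h1 : B ≤ R ^ (8 : ℝ) := by
      refine (le_max_right C B).trans (hCR.trans ?_)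
      exact Real.rpow_le_rpow_of_exponent_le hR (by have := hD.d1; linarith)
    calc B * R ^ (8 : ℝ) ≤ R ^ (8 : ℝ) * R ^ (8 : ℝ) :=
          mul_le_mul_of_nonneg_right h1 (by positivity)
      _ = R ^ ((4 : ℝ) * (((2 : ℕ) : ℝ) + 2)) := by
          rw [← Real.rpow_add hR0]
          norm_num
  have hw0 : 0 < w := lt_of_lt_of_le (Real.rpow_pos_of_pos hR0 _) hw1
  have hM0 : 0 ≤ M := by linarith
  have hb0 : 0 ≤ b := by have := hD.b1; linarith
  obtain ⟨h1, h2⟩ := hC R (R ^ (1 - ε₀)) w b M (S i) QQ l k z z hR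
    ((le_max_left C B).trans hCR) hw1 hw2 hD.b1 hM (fun W hW => (hD.pk i W hW).1) hcard
    (by rw [sub_self, norm_zero]; norm_num) (fun W hW => (hD.tube i W hW).2) (hMt z hz)
  refine ⟨h1.trans ?_, h2.trans ?_⟩
  · exact mul_le_mul_of_nonneg_right (mul_le_mul_of_nonneg_right (le_max_left C B) hw0.le) hM0
  · exact mul_le_mul_of_nonneg_right (mul_le_mul_of_nonneg_right (le_max_left C B) hM0) hb0

end Pool.Agent.H59.B2.DMU
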