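import Pool.Agent.H88.B2.Targets2

set_option autoImplicit false

namespace Pool.Agent.H59.B2.DRD

open MeasureTheory Set
open Pool.Agent.H83.G Pool.Agent.H88.B2 Pool.Agent.H22.G4
open scoped ENNReal NNReal RealInnerProductSpace

theorem pf_DRD (hRD4 : T_RD4) (hDA1 : T_DA1) : T_DRD := by
  intro L β Ψ ψ δ b₀ B ε₀
  by_cases hh : (IsPU β ∧ IsPsi Ψ ψ) ∧ 0 < δ ∧ δ ≤ 1 / 100
  swap
  · refine ⟨0, fun N _ => ⟨1, le_rfl, ?_⟩⟩
    intro κ R P A H En G c z₀ S a b l k QQ X M₁ i hC hD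
    exact absurd ⟨⟨hD.pu, hD.psi⟩, hD.d0, hD.d1.trans (by norm_num)⟩ hh
  obtain ⟨N₀, hN⟩ := hDA1 L β Ψ ψ δ b₀ B ε₀
  refine ⟨max N₀ 5, fun N hNN => ?_⟩
  obtain ⟨C₁, hC₁, hDA⟩ := hN N ((le_max_left _ _).trans hNN)
  obtain ⟨C₂, hC₂, hRD⟩ := hRD4 L β Ψ ψ δ hh.1.1 hh.1.2 hh.2.1 hh.2.2 N
    ((le_max_right _ _).trans hNN)
  refine ⟨max (max C₁ C₂) (max B (2 * C₁ * C₂)), le_max_of_le_left (le_max_of_le_left hC₁), ?_⟩
  intro κ R P A H En G c z₀ S a b l k QQ X M₁ i hCR hD hM₁ hNd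
  have hR := hD.R1
  have hR0 : 0 < R := by linarith
  have hδ0 := hD.d0
  have hδ1 := hD.d1
  have ha := hD.a0
  have hH := hD.H0
  have hB1 := hD.B1
  have hM0 : 0 < M₁ := lt_of_lt_of_le (Real.rpow_pos_of_pos hR0 _) hM₁
  have hCC1 : C₁ ≤ R ^ δ := (((le_max_left _ _).trans (le_max_left _ _)).trans hCR)
  have hCC2 : C₂ ≤ R ^ δ := (((le_max_right _ _).trans (le_max_left _ _)).trans hCR)
  have hBR : B ≤ R ^ δ := (((le_max_left _ _).trans (le_max_right _ _)).trans hCR)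
  have hBR2 : B ≤ R ^ (2 : ℝ) :=
    hBR.trans (Real.rpow_le_rpow_of_exponent_le hR (by linarith))
  rcases X.eq_empty_or_nonempty with hX | hX
  · subst hX
    simp only [Finset.card_empty, Nat.cast_zero, zero_mul]
    have : 0 ≤ max (max C₁ C₂) (max B (2 * C₁ * C₂)) :=
      le_trans (by linarith) (le_max_of_le_left (le_max_of_le_left hC₁))
    positivity
  obtain ⟨-, -, -, -, hz, hballs⟩ := hDA κ R P A H En G c z₀ S a b l k QQ X hCC1 hD hX
  -- the multiplicity parameter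
  have hmin0 : 0 < min (2 * M₁) (B * R ^ (8 : ℝ)) := lt_min (by linarith) (by positivity)
  have hmin1 : R ^ (-(10 : ℝ)) ≤ min (2 * M₁) (B * R ^ (8 : ℝ)) := by
    refine le_min ?_ ?_
    · have h1 : R ^ (-(10 : ℝ)) ≤ R ^ (-(20 * δ)) :=
        Real.rpow_le_rpow_of_exponent_le hR (by linarith)
      linarith
    · have h1 : R ^ (-(10 : ℝ)) ≤ 1 := Real.rpow_le_one_of_one_le_of_nonpos hR (by norm_num)
      have h2 : 1 ≤ R ^ (8 : ℝ) := Real.one_le_rpow hR (by norm_num)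
      nlinarith
  have hmin2 : min (2 * M₁) (B * R ^ (8 : ℝ)) ≤ R ^ (10 : ℝ) := by
    refine (min_le_right _ _).trans ?_
    calc B * R ^ (8 : ℝ) ≤ R ^ (2 : ℝ) * R ^ (8 : ℝ) :=
          mul_le_mul_of_nonneg_right hBR2 (by positivity)
      _ = R ^ (10 : ℝ) := by rw [← Real.rpow_add hR0]; norm_num
  -- one ball
  have hone : ∀ j ∈ X.image (Bz R ε₀),
      ((X.filter (fun z => Bz R ε₀ z = j)).card : ℝ) * H ^ 4 ≤
        C₂ * R ^ (lo 2 * (4 * δ)) * (2 * M₁) * a ^ 4 * (S i).card * R ^ 2 := by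
    intro j _
    have hsub : SB QQ R (R ^ (1 - ε₀)) δ l k (S i) j ⊆ S i := by
      classical
      unfold SB
      intro W hW
      exact (Finset.mem_filter.1 hW).1
    have h1 := hRD κ R A a H (min (2 * M₁) (B * R ^ (8 : ℝ))) (G i)
      (SB QQ R (R ^ (1 - ε₀)) δ l k (S i) j) (X.filter (fun z => Bz R ε₀ z = j))
      hD.k0 hD.k1 hR hCC2 hD.A0 (hD.cls i) ha hH hmin1 hmin2
      (fun z hz z' hz' hne => hD.sep z (Finset.mem_of_mem_filter z hz) z'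
        (Finset.mem_of_mem_filter z' hz') hne)
      (fun W hW => by
        obtain ⟨p1, p2, p3, p4, p5, p6⟩ := hD.pk i W (hsub hW)
        exact ⟨p1, p6⟩)
      (fun z hzz => by
        obtain ⟨hzX, hzj⟩ := Finset.mem_filter.1 hzz
        have e1 : Sz R δ ε₀ l k QQ (S i) z = SB QQ R (R ^ (1 - ε₀)) δ l k (S i) j := by
          unfold Sz
          rw [hzj]
        have e2 := hD.FH z hzX i
        have e3 := hNd z hzX
        have e4 := (hz z hzX i).2.2 (R ^ δ)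
        rw [e1] at e2 e3 e4
        exact ⟨e2, le_min e3 e4⟩)
    refine h1.trans ?_
    have hc : ((SB QQ R (R ^ (1 - ε₀)) δ l k (S i) j).card : ℝ) ≤ (S i).card := by
      exact_mod_cast Finset.card_le_card hsub
    have h3 : min (2 * M₁) (B * R ^ (8 : ℝ)) ≤ 2 * M₁ := min_le_left _ _
    gcongr
  have hsum : (X.card : ℝ) * H ^ 4 ≤ ((X.image (Bz R ε₀)).card : ℝ) *
      (C₂ * R ^ (lo 2 * (4 * δ)) * (2 * M₁) * a ^ 4 * (S i).card * R ^ 2) := by
    have h1 := Finset.card_eq_sum_card_image (Bz R ε₀) X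
    have h2 : (X.card : ℝ) = ∑ j ∈ X.image (Bz R ε₀),
        ((X.filter (fun z => Bz R ε₀ z = j)).card : ℝ) := by
      rw [h1]
      push_cast
      rfl
    rw [h2, Finset.sum_mul]
    calc _ ≤ ∑ j ∈ X.image (Bz R ε₀),
          (C₂ * R ^ (lo 2 * (4 * δ)) * (2 * M₁) * a ^ 4 * (S i).card * R ^ 2) :=
          Finset.sum_le_sum hone
      _ = _ := by rw [Finset.sum_const, nsmul_eq_mul]
  refine hsum.trans ?_
  have hexp : R ^ (4 * ε₀) * R ^ (lo 2 * (4 * δ)) ≤ R ^ (la * (δ + ε₀)) := by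
    rw [← Real.rpow_add hR0]
    apply Real.rpow_le_rpow_of_exponent_le hR
    have he0 := hD.e0
    unfold lo la
    push_cast
    nlinarith
  calc ((X.image (Bz R ε₀)).card : ℝ) *
        (C₂ * R ^ (lo 2 * (4 * δ)) * (2 * M₁) * a ^ 4 * (S i).card * R ^ 2)
      ≤ (C₁ * R ^ (4 * ε₀)) *
        (C₂ * R ^ (lo 2 * (4 * δ)) * (2 * M₁) * a ^ 4 * (S i).card * R ^ 2) := by
        gcongr
    _ = (2 * C₁ * C₂) * (R ^ (4 * ε₀) * R ^ (lo 2 * (4 * δ))) * M₁ * a ^ 4 * (S i).card * R ^ 2 := by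
        ring
    _ ≤ (2 * C₁ * C₂) * R ^ (la * (δ + ε₀)) * M₁ * a ^ 4 * (S i).card * R ^ 2 := by
        gcongr
    _ ≤ max (max C₁ C₂) (max B (2 * C₁ * C₂)) * R ^ (la * (δ + ε₀)) * M₁ * a ^ 4 *
        (S i).card * R ^ 2 := by
        have : 2 * C₁ * C₂ ≤ max (max C₁ C₂) (max B (2 * C₁ * C₂)) :=
          (le_max_right _ _).trans (le_max_right _ _)
        gcongr

end Pool.Agent.H59.B2.DRD
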